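import Mathlib

/-! The walkers on the leftover environments. -/

set_option autoImplicit false

open MeasureTheory Filter

namespace Pool.Agent.P.MP_c7fa75_pr.SP

/-- On the probability space `(Θ, μ)`, `W` is a cookie environment of law `P`, `env j` is the
environment left by the first `j` walkers, and `X j` is an excited walk from `0` on `env j`. -/
def Realises {Θ : Type} [MeasurableSpace Θ] (P : Measure (ℤ → ℕ → ℝ)) (μ : Measure Θ)
    (W : Θ → ℤ → ℕ → ℝ) (X : ℕ → Θ → ℕ → ℤ) (env : ℕ → Θ → ℤ → ℕ → ℝ) : Prop :=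
  IsProbabilityMeasure μ ∧ Measurable W ∧ μ.map W = P ∧ (∀ j, Measurable (X j)) ∧
    env 0 = W ∧
    (∀ (j : ℕ) (θ : Θ) (x : ℤ) (n : ℕ),
        Tendsto (fun m => |X j θ m|) atTop atTop →
          env (j + 1) θ x n = env j θ x (n + Nat.card {m : ℕ // X j θ m = x})) ∧
    (∀ (j : ℕ) (θ : Θ) (x : ℤ) (n : ℕ),
        ¬ Tendsto (fun m => |X j θ m|) atTop atTop → env (j + 1) θ x n = 1 / 2) ∧
    (∀ (j : ℕ) (θ : Θ), X j θ 0 = 0) ∧
    (∀ (j : ℕ) (θ : Θ) (n : ℕ), X j θ (n + 1) = X j θ n + 1 ∨ X j θ (n + 1) = X j θ n - 1) ∧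
    (∀ (j n : ℕ),
        condExp
          (MeasurableSpace.comap
            (fun θ => (W θ, (fun i : Fin j => X (i : ℕ) θ), (fun m : Fin (n + 1) => X j θ (m : ℕ))))
            inferInstance)
          μ
          (Set.indicator {θ | X j θ (n + 1) = X j θ n + 1} (fun _ => (1 : ℝ)))
        =ᵐ[μ] fun θ => env j θ (X j θ n)
          ((Finset.range n).filter (fun m => X j θ m = X j θ n)).card)

end Pool.Agent.P.MP_c7fa75_pr.SP
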