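import Pool.Agent.P.MP_c7fa75_pr.SP.A
import Pool.Agent.P.MP_c7fa75_pr.SP.Defs
import Pool.Agent.P.MP_c7fa75_pr.Walk

/-! From the windowed criterion to the walkers, and existence of the walkers. -/

set_option autoImplicit false

namespace Pool.Agent.P.MP_c7fa75_pr.SP

open MeasureTheory ProbabilityTheory Filter Topology Finset
open scoped ENNReal Classical
open Pool.Agent.P.MP_c7fa75_pr.T Pool.Agent.P.MP_c7fa75_pr.R2

section
variable {Θ : Type} [MeasurableSpace Θ] {μ : Measure Θ} [IsProbabilityMeasure μ]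
  {P0 : Measure (ℕ → ℝ)} [IsProbabilityMeasure P0] {C : ℝ} {k : ℕ}

theorem few (R : Run μ k) (h : Tame P0 C) (hE : Env μ R.W P0) (r : ℕ) (hr : 1 ≤ r)
    (hd : ∀ᶠ z in atTop, dd P0 z ≤ (r : ℝ) - 1 / 3) :
    ∀ᵐ θ ∂μ, T.Good (fun i => R.X i θ) k →
      ((range k).filter (fun i => Tendsto (R.X i θ) atTop atTop)).card < r := by
  filter_upwards [got_FLD Θ μ k R P0 h.in01 hE (fun a => ¬ Surv a r) (kill h r hr hd)] with θ hθ hG
  obtain ⟨a, ha, hF⟩ := hθ
  by_contra hh
  refine ha ⟨fun x => off (fun i => R.X i θ) k (x : ℤ), fun x => ?_⟩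
  have h := got_NET a (fun i => R.X i θ) k k (R.nn θ) hF le_rfl hG x
  have e : ((x + 1 : ℕ) : ℤ) = (x : ℤ) + 1 := by push_cast; rfl
  simp only [e]
  rw [h]
  exact Nat.add_le_add_left (not_lt.mp hh) _

omit [IsProbabilityMeasure P0] in
theorem int_rfl (f : (ℕ → ℝ) → ℝ) : ∫ w, f w ∂P0.map rfl1 = ∫ w, f (rfl1 w) ∂P0 :=
  integral_map_equiv RFL0x.eqv f

omit [IsProbabilityMeasure P0] in
theorem dd_rfl (z : ℕ) : dd (P0.map rfl1) z = - dd P0 z := by
  simp only [dd, int_rfl, psum_rfl1, integral_neg]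

theorem abs_rfl (w : ℕ → ℝ) (i : ℕ) : |2 * rfl1 w i - 1| = |2 * w i - 1| := by
  rw [← abs_neg, rfl1]
  congr 1
  ring

omit [IsProbabilityMeasure P0] in
theorem Tame.refl (h : Tame P0 C) : Tame (P0.map rfl1) C := by
  refine ⟨h.1, RFL0x.ae ?_, ?_⟩
  · filter_upwards [h.2.1] with w hw n
    simp only [abs_rfl]
    refine ⟨?_, (hw n).2⟩
    simp only [rfl1]
    constructor <;> linarith [(hw n).1.1, (hw n).1.2]
  · have e : al (P0.map rfl1) = al P0 := funext fun i => by simp only [al, int_rfl, abs_rfl]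
    rw [e]
    exact h.2.2

theorem run_core (R : Run μ k) (h : Tame P0 C) (hE : Env μ R.W P0) (hk : 1 ≤ k)
    (hpos : ∀ᶠ z in atTop, 0 ≤ dd P0 z) :
    ((∀ᶠ z in atTop, (k : ℝ) + 1 / 3 ≤ dd P0 z) → ∀ᵐ θ ∂μ, Tendsto (R.X (k - 1) θ) atTop atTop) ∧
    ((∀ᶠ z in atTop, dd P0 z ≤ (k : ℝ) - 1 / 3) → ∀ᵐ θ ∂μ, ¬ T.Good (fun i => R.X i θ) k) := by
  obtain ⟨R', hX, hE'⟩ := got_REFL Θ μ k R P0 hE
  have := (got_RFL0 P0).1
  have hL := few R' h.refl hE' 1 le_rfl (hpos.mono fun z hz => by rw [dd_rfl]; push_cast; linarith)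
  have hTop : ∀ᵐ θ ∂μ, T.Good (fun i => R.X i θ) k →
      ∀ i, i < k → Tendsto (R.X i θ) atTop atTop := by
    filter_upwards [hL] with θ hθ hG i hi
    rcases (got_FLOW (R.X i θ) ((R.nn θ).1 i) ((R.nn θ).2 i)).2.1 (hG i hi) with h | hT
    · exact h
    · have e : ∀ i, R'.X i θ = fun n => - R.X i θ n := fun i => funext fun n => hX i θ n
      have h0 := hθ (by simp only [e]; exact (REFLx.good_neg _ k).2 hG)
      have hm : i ∈ (range k).filter (fun i => Tendsto (R'.X i θ) atTop atTop) := by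
        refine mem_filter.2 ⟨mem_range.2 hi, ?_⟩
        rw [e]
        exact tendsto_neg_atBot_atTop.comp hT
      have := card_pos.2 ⟨i, hm⟩
      omega
  refine ⟨fun ha => ?_, fun hb => ?_⟩
  · filter_upwards [got_FLD Θ μ k R P0 h.in01 hE _ (surv h k hk ha), hTop] with θ hθ hT
    obtain ⟨a, ⟨hs, hinf⟩, hfol⟩ := hθ
    exact hT (got_DT a _ k (R.nn θ) hfol hs hinf) (k - 1) (by omega)
  · filter_upwards [few R h hE k hk hb, hTop] with θ hθ hT hG
    have h1 := hθ hG
    rw [filter_true_of_mem (fun i hi => hT hG i (mem_range.1 hi)), card_range] at h1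
    exact lt_irrefl _ h1

theorem mod_core (M : Mod μ) (h : Tame P0 C) (hE : Env μ M.W P0) (hk : 1 ≤ k) {ε : ℤ}
    (hε : ε = 1 ∨ ε = -1) (hpos : ∀ᶠ z in atTop, 0 ≤ ε * dd P0 z) :
    ((∀ᶠ z in atTop, (k : ℝ) + 1 / 3 ≤ ε * dd P0 z) →
      ∀ᵐ θ ∂μ, Tendsto (fun n => ε * M.X (k - 1) θ n) atTop atTop) ∧
    ((∀ᶠ z in atTop, ε * dd P0 z ≤ (k : ℝ) - 1 / 3) → ∀ᵐ θ ∂μ, ¬ Tr (M.X (k - 1) θ)) := by
  obtain ⟨R, hRW, hRX⟩ := got_RUN0 Θ μ M k
  have hER : Env μ R.W P0 := by rw [hRW]; exact hE
  have fin : (∀ᵐ θ ∂μ, ¬ T.Good (fun i => R.X i θ) k) → ∀ᵐ θ ∂μ, ¬ Tr (M.X (k - 1) θ) := by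
    intro hN
    filter_upwards [hN, got_SRW Θ μ M (k - 1)] with θ hθ hs hTr
    have hG1 : T.Good (fun i => M.X i θ) (k - 1) := by
      by_contra hne
      exact hs hne hTr
    refine hθ fun i hi => ?_
    rw [hRX]
    by_cases h : i < k - 1
    · exact hG1 i h
    · have e : i = k - 1 := by omega
      rw [e]; exact hTr
  rcases hε with rfl | rfl
  · simp only [Int.cast_one, one_mul] at hpos ⊢
    obtain ⟨c1, c2⟩ := run_core R h hER hk hpos
    exact ⟨fun ha => hRX ▸ c1 ha, fun hb => fin (c2 hb)⟩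
  · obtain ⟨R', hX, hE'⟩ := got_REFL Θ μ k R P0 hER
    have := (got_RFL0 P0).1
    have e0 : ∀ z, ((-1 : ℤ) : ℝ) * dd P0 z = dd (P0.map rfl1) z := fun z => by
      rw [dd_rfl]; push_cast; ring
    simp only [e0] at hpos ⊢
    obtain ⟨c1, c2⟩ := run_core R' h.refl hE' hk hpos
    have e : ∀ i θ, R'.X i θ = fun n => - R.X i θ n := fun i θ => funext fun n => hX i θ n
    refine ⟨fun ha => (c1 ha).mono fun θ hθ => ?_, fun hb => fin ((c2 hb).mono fun θ hθ hG => ?_)⟩
    · rw [e, hRX] at hθ
      simpa only [neg_mul, one_mul] using hθ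
    · exact hθ (by simp only [e]; exact (REFLx.good_neg _ k).2 hG)

end

/-! ### Existence of the walkers -/

/-- Position and local times of the walk driven by the environment `e` and uniform variables. -/
noncomputable def ust (e : ℤ → ℕ → ℝ) (u : ℕ → unitInterval) : ℕ → ℤ × (ℤ → ℕ)
  | 0 => (0, fun _ => 0)
  | n + 1 =>
    (if arr1 (e (ust e u n).1 ((ust e u n).2 (ust e u n).1)) (u n) = true
      then (ust e u n).1 + 1 else (ust e u n).1 - 1,
     fun x => if x = (ust e u n).1 then (ust e u n).2 x + 1 else (ust e u n).2 x)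

noncomputable def uw (e : ℤ → ℕ → ℝ) (u : ℕ → unitInterval) (n : ℕ) : ℤ := (ust e u n).1

theorem ust_loc (e : ℤ → ℕ → ℝ) (u : ℕ → unitInterval) (n : ℕ) (x : ℤ) :
    (ust e u n).2 x = ((range n).filter (fun m => uw e u m = x)).card := by
  induction n with
  | zero => rfl
  | succ n ih =>
    have e1 : (ust e u (n + 1)).2 x =
      if x = uw e u n then (ust e u n).2 x + 1 else (ust e u n).2 x := rfl
    rw [e1, range_add_one, filter_insert, ih]
    by_cases h : x = uw e u n
    · rw [if_pos h, if_pos h.symm, card_insert_of_notMem (by simp)]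
    · rw [if_neg h, if_neg (Ne.symm h)]

theorem uw_succ (e : ℤ → ℕ → ℝ) (u : ℕ → unitInterval) (n : ℕ) : uw e u (n + 1) =
    if arr1 (e (uw e u n) (cnt (uw e u) n)) (u n) = true then uw e u n + 1 else uw e u n - 1 := by
  rw [cnt, ← ust_loc]
  rfl

theorem ust_congr (e : ℤ → ℕ → ℝ) {u u' : ℕ → unitInterval} (n : ℕ) (h : ∀ m < n, u m = u' m) :
    ust e u n = ust e u' n := by
  induction n with
  | zero => rfl
  | succ n ih =>
    have h1 := ih (fun m hm => h m (by omega))
    have h2 := h n (by omega)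
    simp only [ust, h1, h2]

theorem meas_ust {Θ : Type} [MeasurableSpace Θ] {E : Θ → ℤ → ℕ → ℝ} (hE : Measurable E)
    {U : Θ → ℕ → unitInterval} (hU : Measurable U) (n : ℕ) :
    Measurable (fun θ => ust (E θ) (U θ) n) := by
  induction n with
  | zero => exact measurable_const
  | succ n ih =>
    have h1 : Measurable (fun θ => (ust (E θ) (U θ) n).1) := ih.fst
    have h2 : Measurable (fun θ => (ust (E θ) (U θ) n).2) := ih.snd
    have h3 : Measurable (fun θ => (ust (E θ) (U θ) n).2 (ust (E θ) (U θ) n).1) :=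
      MP_c7fa75_pr.meas_app h1 (g := fun θ x => (ust (E θ) (U θ) n).2 x) fun a =>
        (measurable_pi_apply a).comp h2
    have h4 := meas_env_app hE h1 h3
    have h5 := meas_arr1 h4 ((measurable_pi_apply n).comp hU)
    simp only [ust]
    refine Measurable.prodMk ?_ ?_
    · exact Measurable.ite (measurableSet_eq_fun h5 measurable_const) (h1.add_const 1)
        (h1.sub_const 1)
    · refine measurable_pi_lambda _ fun x => ?_
      have h6 : Measurable (fun θ => (ust (E θ) (U θ) n).2 x) := (measurable_pi_apply x).comp h2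
      exact Measurable.ite (measurableSet_eq_fun measurable_const h1) (h6.add_const 1) h6

abbrev Th : Type := (ℤ → ℕ → ℝ) × (ℕ × ℕ → unitInterval)

def co (j : ℕ) (θ : Th) : ℕ → unitInterval := fun n => θ.2 (j, n)

noncomputable def uenv : ℕ → Th → ℤ → ℕ → ℝ
  | 0 => fun θ => θ.1
  | j + 1 => fun θ => leftover (uenv j θ) (uw (uenv j θ) (co j θ))

noncomputable def uX (j : ℕ) (θ : Th) : ℕ → ℤ := uw (uenv j θ) (co j θ)

theorem meas_co (j : ℕ) : Measurable (co j) :=
  measurable_pi_lambda _ fun n => (measurable_pi_apply (j, n)).comp measurable_snd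

theorem meas_uenv (j : ℕ) : Measurable (uenv j) := by
  induction j with
  | zero => exact measurable_fst
  | succ j ih =>
    exact meas_leftover ih (measurable_pi_lambda _ fun n => (meas_ust ih (meas_co j) n).fst)

theorem meas_uX (j : ℕ) : Measurable (uX j) :=
  measurable_pi_lambda _ fun n => (meas_ust (meas_uenv j) (meas_co j) n).fst

theorem uenv_mem {θ : Th} (h : ∀ x n, θ.1 x n ∈ Set.Icc (0 : ℝ) 1) (j : ℕ) :
    ∀ x n, uenv j θ x n ∈ Set.Icc (0 : ℝ) 1 := by
  induction j with
  | zero => exact h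
  | succ j ih =>
    intro x n
    simp only [uenv, leftover]
    split_ifs
    · exact ih _ _
    · constructor <;> norm_num

/-- Resetting one uniform variable. -/
noncomputable def upd (d : ℕ × ℕ) (θ : Th) : Th := (θ.1, Function.update θ.2 d 0)

theorem uenv_upd (j n : ℕ) (θ : Th) (i : ℕ) (hi : i ≤ j) :
    uenv i (upd (j, n) θ) = uenv i θ := by
  induction i with
  | zero => rfl
  | succ i ih =>
    have : co i (upd (j, n) θ) = co i θ := by
      funext a
      exact Function.update_of_ne (by simp; omega) _ _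
    simp only [uenv]
    rw [ih (by omega), this]

theorem uX_upd_lt (j n : ℕ) (θ : Th) (i : ℕ) (hi : i < j) : uX i (upd (j, n) θ) = uX i θ := by
  have : co i (upd (j, n) θ) = co i θ := by
    funext a
    exact Function.update_of_ne (by simp; omega) _ _
  simp only [uX]
  rw [uenv_upd j n θ i hi.le, this]

theorem uX_upd (j n : ℕ) (θ : Th) (m : ℕ) (hm : m ≤ n) : uX j (upd (j, n) θ) m = uX j θ m := by
  simp only [uX, uw]
  rw [uenv_upd j n θ j le_rfl, ust_congr _ m]
  intro k hk
  exact Function.update_of_ne (by simp; omega) _ _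

theorem indep_upd {ι : Type} [DecidableEq ι] (c : ι) :
    IndepFun (fun B : ι → unitInterval => Function.update B c 0) (fun B => B c) (lamU ι) := by
  have h1 : iIndepFun (fun (i : ι) (B : ι → unitInterval) => B i) (lamU ι) :=
    iIndepFun_infinitePi (X := fun (_ : ι) (b : unitInterval) => b) (fun _ => measurable_id)
  have h2 := indep_iSup_of_disjoint (fun i => (measurable_pi_apply i).comap_le) h1.iIndep
    (S := {c}ᶜ) (T := {c}) disjoint_compl_left
  rw [IndepFun_iff_Indep]
  refine indep_of_indep_of_le h2 (Measurable.comap_le ?_) ?_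
  · refine @measurable_pi_lambda _ _ _ (_) _ _ fun i => ?_
    by_cases hi : i = c
    · subst hi
      simp only [Function.update_self]
      exact measurable_const
    · simp only [Function.update_of_ne hi]
      exact Measurable.of_comap_le (le_iSup₂ (f := fun i (_ : i ∈ ({c}ᶜ : Set ι)) =>
        MeasurableSpace.comap (fun B : ι → unitInterval => B i) inferInstance) i hi)
  · exact le_iSup₂ (f := fun i (_ : i ∈ ({c} : Set ι)) =>
      MeasurableSpace.comap (fun B : ι → unitInterval => B i) inferInstance) c rfl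

theorem int_upd {ι : Type} [DecidableEq ι] (c : ι) {G c0 : (ι → unitInterval) → ℝ}
    (hG : Measurable G) (hc : Measurable c0) (hb : ∀ B, |G B| ≤ 1)
    (h01 : ∀ B, c0 B ∈ Set.Icc (0 : ℝ) 1) (iG : ∀ B, G (Function.update B c 0) = G B)
    (ic : ∀ B, c0 (Function.update B c 0) = c0 B) :
    ∫ B, G B * (if arr1 (c0 B) (B c) = true then 1 else 0) ∂lamU ι = ∫ B, G B * c0 B ∂lamU ι := by
  have m1 : Measurable (fun B : ι → unitInterval => Function.update B c 0) := by fun_prop
  have m2 : Measurable (fun B : ι → unitInterval => B c) := measurable_pi_apply c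
  have h := (indepFun_iff_map_prod_eq_prod_map_map m1.aemeasurable m2.aemeasurable).1 (indep_upd c)
  have hv : (lamU ι).map (fun B => B c) = volume := Measure.infinitePi_map_eval _ c
  rw [hv] at h
  set F : (ι → unitInterval) × unitInterval → ℝ :=
    fun p => G p.1 * (if arr1 (c0 p.1) p.2 = true then 1 else 0) with hF
  have mF : Measurable F := (hG.comp measurable_fst).mul (Measurable.ite (measurableSet_eq_fun
    (meas_arr1 (hc.comp measurable_fst) measurable_snd) measurable_const) measurable_const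
    measurable_const)
  have : IsProbabilityMeasure ((lamU ι).map fun B => Function.update B c 0) :=
    Measure.isProbabilityMeasure_map m1.aemeasurable
  have e1 : ∫ B, G B * (if arr1 (c0 B) (B c) = true then 1 else 0) ∂lamU ι =
      ∫ p, F p ∂(lamU ι).map (fun B => (Function.update B c 0, B c)) := by
    rw [integral_map (m1.prodMk m2).aemeasurable mF.aestronglyMeasurable]
    simp only [hF, iG, ic]
  have e2 : ∀ v, ∫ t, F (v, t) = G v * c0 v := fun v => by
    simp only [hF]
    rw [integral_const_mul]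
    refine congrArg _ (Eq.trans ?_ (CYLx.one_true (h01 v)))
    rw [← integral_indicator_one (CYLx.ms _ _)]
    congr 1
    funext t
    simp only [Set.indicator_apply, Set.mem_ofPred_eq, Pi.one_apply]
  rw [e1, h, integral_prod _ (Integrable.of_bound mF.aestronglyMeasurable 1 (ae_of_all _ fun p => by
    rw [Real.norm_eq_abs, hF, abs_mul]
    split_ifs
    · simpa using hb p.1
    · simp))]
  simp only [e2]
  rw [integral_map (f := fun v => G v * c0 v) m1.aemeasurable (hG.mul hc).aestronglyMeasurable]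
  simp only [iG, ic]

theorem meas_ck (j n : ℕ) : Measurable[past Prod.fst uX j n]
    (fun θ : Th => uenv j θ (uX j θ n) (cnt (uX j θ) n)) := by
  have hE : ∀ i, i ≤ j → Measurable[past Prod.fst uX j n] (uenv i) := by
    intro i hi
    induction i with
    | zero => exact past_W _ _ j n
    | succ i ih =>
      exact @meas_leftover Th (past Prod.fst uX j n) _ (ih (by omega)) _ (past_X _ _ j n hi)
  have hc := (@got_MEAS Th (past Prod.fst uX j n) uX j n (fun i hi => past_X _ _ j n hi)
    (fun s hs => past_Xj _ _ j n hs)).2.2.1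
  exact @meas_env_app Th (past Prod.fst uX j n) _ (hE j le_rfl) _ (past_Xj _ _ j n le_rfl) _ hc

theorem ce_step (P : Measure (ℤ → ℕ → ℝ)) [IsProbabilityMeasure P]
    (h : ∀ᵐ ω ∂P, ∀ x n, ω x n ∈ Set.Icc (0 : ℝ) 1) (j n : ℕ) :
    condExp (past Prod.fst uX j n) (P.prod (lamU (ℕ × ℕ)))
      (Set.indicator {θ | uX j θ (n + 1) = uX j θ n + 1} (fun _ => (1 : ℝ)))
    =ᵐ[P.prod (lamU (ℕ × ℕ))] fun θ => uenv j θ (uX j θ n) (cnt (uX j θ) n) := by
  have hm : past Prod.fst uX j n ≤ (inferInstance : MeasurableSpace Th) :=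
    past_le _ _ j n measurable_fst meas_uX
  set ck : Th → ℝ := fun θ => uenv j θ (uX j θ n) (cnt (uX j θ) n) with hck
  have mc : Measurable ck := (meas_ck j n).mono hm le_rfl
  have h' : ∀ᵐ θ ∂P.prod (lamU (ℕ × ℕ)), ∀ x n, θ.1 x n ∈ Set.Icc (0 : ℝ) 1 :=
    Measure.quasiMeasurePreserving_fst.ae h
  have hci : Integrable ck (P.prod (lamU (ℕ × ℕ))) := by
    refine Integrable.of_bound mc.aestronglyMeasurable 1 (h'.mono fun θ hθ => ?_)
    have := uenv_mem hθ j (uX j θ n) (cnt (uX j θ) n)
    rw [Real.norm_of_nonneg this.1]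
    exact this.2
  have hms : MeasurableSet {θ | uX j θ (n + 1) = uX j θ n + 1} :=
    measurableSet_eq_fun ((measurable_pi_apply _).comp (meas_uX j))
      (((measurable_pi_apply _).comp (meas_uX j)).add_const 1)
  have hii : Integrable (Set.indicator {θ | uX j θ (n + 1) = uX j θ n + 1} (fun _ => (1 : ℝ)))
      (P.prod (lamU (ℕ × ℕ))) := (integrable_const 1).indicator hms
  have cinv : ∀ θ, ck (upd (j, n) θ) = ck θ := fun θ => by
    simp only [hck, cnt]
    rw [uenv_upd j n θ j le_rfl, uX_upd j n θ n le_rfl,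
      filter_congr fun m hm => by rw [uX_upd j n θ m (mem_range.1 hm).le]]
  symm
  refine ae_eq_condExp_of_forall_setIntegral_eq hm hii (fun s _ _ => hci.integrableOn)
    (fun s hs _ => ?_) (meas_ck j n).stronglyMeasurable.aestronglyMeasurable
  have ms := hm s hs
  have sinv : ∀ θ, upd (j, n) θ ∈ s ↔ θ ∈ s := fun θ => by
    obtain ⟨t, -, rfl⟩ := hs
    simp only [Set.mem_preimage]
    rw [show (fun i : Fin j => uX i (upd (j, n) θ)) = fun i : Fin j => uX i θ from
        funext fun i => uX_upd_lt j n θ i i.2,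
      show (fun m : Fin (n + 1) => uX j (upd (j, n) θ) m) = fun m : Fin (n + 1) => uX j θ m from
        funext fun m => uX_upd j n θ m (by omega)]
    rfl
  rw [← integral_indicator ms, ← integral_indicator ms, integral_prod _ (hci.indicator ms),
    integral_prod _ (hii.indicator ms)]
  refine integral_congr_ae (h.mono fun w hw => ?_)
  have key := int_upd (j, n) (G := fun B => s.indicator (fun _ => (1 : ℝ)) (w, B))
    (c0 := fun B => ck (w, B)) ((measurable_const.indicator ms).comp measurable_prodMk_left)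
    (mc.comp measurable_prodMk_left) (fun B => by
      simp only [Set.indicator_apply]
      split_ifs <;> simp) (fun B => uenv_mem (θ := (w, B)) hw j _ _) (fun B => by
      simp only [Set.indicator_apply]
      exact if_congr (sinv (w, B)) rfl rfl) (fun B => cinv (w, B))
  refine Eq.trans (integral_congr_ae (ae_of_all _ fun B => ?_))
    (key.symm.trans (integral_congr_ae (ae_of_all _ fun B => ?_)))
  · simp only [Set.indicator_apply]
    split_ifs <;> simp
  · have h0 : uX j (w, B) (n + 1) = if arr1 (ck (w, B)) (B (j, n)) = true then uX j (w, B) n + 1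
        else uX j (w, B) n - 1 := uw_succ _ _ n
    simp only [Set.indicator_apply, Set.mem_ofPred_eq, h0]
    split_ifs <;> first | omega | simp

theorem exist (P : Measure (ℤ → ℕ → ℝ)) [IsProbabilityMeasure P]
    (h : ∀ᵐ ω ∂P, ∀ x n, ω x n ∈ Set.Icc (0 : ℝ) 1) :
    Realises P (P.prod (lamU (ℕ × ℕ))) Prod.fst uX uenv := by
  refine ⟨inferInstance, measurable_fst, ?_, meas_uX, rfl, fun j θ x n hT => ?_,
    fun j θ x n hT => ?_, fun _ _ => rfl, fun j θ n => ?_, ce_step P h⟩
  · rw [Measure.map_fst_prod, measure_univ, one_smul]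
  · exact if_pos hT
  · exact if_neg hT
  · simp only [uX]
    rw [uw_succ]
    split_ifs <;> simp

end Pool.Agent.P.MP_c7fa75_pr.SP
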