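import Pool.Agent.P.MP_c7fa75_pr.SP.B

/-! Stacks with prescribed total drift and prescribed expected partial drifts. -/

set_option autoImplicit false

namespace Pool.Agent.P.MP_c7fa75_pr.SP

open MeasureTheory ProbabilityTheory Filter Topology Finset
open scoped ENNReal Classical
open Pool.Agent.P.MP_c7fa75_pr.T Pool.Agent.P.MP_c7fa75_pr.R2

/-! ### Dyadic blocks -/

def blk (n : ℕ) : ℕ := Nat.log 2 (n + 1)

theorem blk_le (n : ℕ) : 2 ^ blk n ≤ n + 1 := Nat.pow_log_le_self 2 (by omega)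

theorem blk_lt (n : ℕ) : n + 1 < 2 ^ (blk n + 1) := Nat.lt_pow_succ_log_self (by norm_num) _

theorem le_blk {L n : ℕ} (h : 2 ^ L ≤ n) : L ≤ blk n :=
  Nat.le_log_of_pow_le (by norm_num) (by omega)

theorem blk_top : Tendsto blk atTop atTop :=
  tendsto_atTop_atTop.2 fun L => ⟨2 ^ L, fun _ hn => le_blk hn⟩

noncomputable def th (n : ℕ) : ℝ := ((n : ℝ) + 1) / 2 ^ blk n - 1

theorem th_mem (n : ℕ) : 0 ≤ th n ∧ th n ≤ 1 := by
  have h1 : (2 : ℝ) ^ blk n ≤ n + 1 := by exact_mod_cast blk_le n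
  have h2 : (n : ℝ) + 1 ≤ 2 ^ (blk n + 1) := by exact_mod_cast (blk_lt n).le
  have h0 : (0 : ℝ) < 2 ^ blk n := by positivity
  rw [pow_succ] at h2
  rw [th, sub_nonneg, sub_le_iff_le_add, le_div_iff₀ h0, div_le_iff₀ h0]
  constructor <;> linarith

theorem blk_sum (f : ℕ → ℝ) (n : ℕ) :
    ∑ m ∈ range n, f (blk m) / 2 ^ blk m = ∑ i ∈ range (blk n), f i + th n * f (blk n) := by
  induction n with
  | zero => simp [th, blk]
  | succ n ih =>
    rw [sum_range_succ, ih]
    have h1 := blk_le n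
    have h2 := blk_lt n
    by_cases h : n + 1 + 1 < 2 ^ (blk n + 1)
    · have e : blk (n + 1) = blk n := Nat.log_eq_of_pow_le_of_lt_pow (by omega) h
      simp only [th, e]
      push_cast
      ring
    · have e0 : n + 1 + 1 = 2 ^ (blk n + 1) := by omega
      have e : blk (n + 1) = blk n + 1 := by
        rw [blk, e0, Nat.log_pow (by norm_num)]
      have e1 : (n : ℝ) + 1 + 1 = 2 ^ blk n * 2 := by rw [← pow_succ]; exact_mod_cast e0
      have e2 : (n : ℝ) + 1 = 2 ^ blk n * 2 - 1 := by linarith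
      simp only [th, e, sum_range_succ]
      push_cast
      rw [e1, e2, pow_succ]
      field_simp
      ring

theorem blk_cube {n : ℕ} (hn : 1 ≤ n) : ((blk n : ℝ) + 2) ^ 3 ≤ 28 ^ 3 * rt n := by
  have n1 : (1 : ℝ) ≤ n := by exact_mod_cast hn
  have h1 : (2 : ℝ) ^ blk n ≤ 2 * n := by exact_mod_cast (blk_le n).trans (by omega)
  have h2 := Real.le_log_of_pow_le two_pos h1
  rw [Real.log_mul (by norm_num) (by linarith)] at h2
  have h3 := Real.log_le_rpow_div (Nat.cast_nonneg n) (show (0 : ℝ) < 1 / 12 by norm_num)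
  have h4 : 1 ≤ (n : ℝ) ^ (1 / 12 : ℝ) := Real.one_le_rpow n1 (by norm_num)
  have h5 : rt n = ((n : ℝ) ^ (1 / 12 : ℝ)) ^ 3 := by
    rw [rt, ← Real.rpow_natCast, ← Real.rpow_mul (Nat.cast_nonneg n)]
    norm_num
  have h6 := Real.log_two_gt_d9
  have h7 := Real.log_two_lt_d9
  rw [h5, ← mul_pow]
  refine pow_le_pow_left₀ (by positivity) ?_ 3
  have h8 : (blk n : ℝ) * (1 / 2) ≤ blk n * Real.log 2 :=
    mul_le_mul_of_nonneg_left (by linarith) (Nat.cast_nonneg _)
  linarith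

/-- The stack whose partial drift interpolates `U` along the blocks. -/
noncomputable def stk (U : ℕ → ℝ) : ℕ → ℝ :=
  fun n => 1 / 2 + (U (blk n + 1) - U (blk n)) / 2 ^ blk n / 2

theorem stk_abs (U : ℕ → ℝ) (n : ℕ) :
    |2 * stk U n - 1| = |U (blk n + 1) - U (blk n)| / 2 ^ blk n := by
  rw [show 2 * stk U n - 1 = (U (blk n + 1) - U (blk n)) / 2 ^ blk n by rw [stk]; ring, abs_div,
    abs_of_pos (show (0 : ℝ) < 2 ^ blk n by positivity)]

theorem stk_psum {U : ℕ → ℝ} (h : U 0 = 0) (n : ℕ) :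
    psum (stk U) n = U (blk n) + th n * (U (blk n + 1) - U (blk n)) := by
  have := blk_sum (fun i => U (i + 1) - U i) n
  rw [sum_range_sub, h, sub_zero] at this
  rw [← this]
  exact sum_congr rfl fun i _ => by rw [stk]; ring

theorem stk_sum (U : ℕ → ℝ) (n : ℕ) :
    ∑ i ∈ range n, |2 * stk U i - 1| ≤ ∑ i ∈ range (blk n + 1), |U (i + 1) - U i| := by
  simp only [stk_abs]
  rw [blk_sum (fun i => |U (i + 1) - U i|) n, sum_range_succ]
  exact add_le_add le_rfl (mul_le_of_le_one_left (abs_nonneg _) (th_mem n).2)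

theorem ae_rng (ν : Measure ℕ) (f : ℕ → ℕ → ℝ) : ∀ᵐ w ∂ν.map f, ∃ J, f J = w :=
  (ae_map_iff Measurable.of_discrete.aemeasurable (Set.countable_range f).measurableSet).2
    (ae_of_all _ fun J => ⟨J, rfl⟩)

theorem win_zero {A : ℕ → ℝ} (h0 : ∀ i, 0 ≤ A i) (h : Tendsto A atTop (𝓝 0)) :
    Tendsto (win fun m => A (blk m) / 2 ^ blk m) atTop (𝓝 0) := by
  refine tendsto_order.2 ⟨fun a ha => Eventually.of_forall fun z => ha.trans_le
    (sum_nonneg fun m _ => div_nonneg (h0 _) (by positivity)), fun a ha => ?_⟩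
  obtain ⟨m0, hm0⟩ := eventually_atTop.1
    ((h.comp blk_top).eventually (gt_mem_nhds (show 0 < a / 32 by positivity)))
  filter_upwards [eventually_ge_atTop (2 * m0 + 1)] with z hz
  have z0 : (0 : ℝ) < z := by exact_mod_cast (show 0 < z by omega)
  have h1 : ∀ m ∈ Ico (z / 2) (4 * z), A (blk m) / 2 ^ blk m ≤ a / 32 * (4 / z) := fun m hm => by
    have m1 := (mem_Ico.1 hm).1
    have m2 := blk_lt m
    have m3 : (z : ℝ) ≤ 4 * 2 ^ blk m := by
      rw [pow_succ] at m2
      exact_mod_cast (show z ≤ 4 * 2 ^ blk m by omega)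
    rw [div_eq_mul_one_div]
    refine mul_le_mul (hm0 m (by omega)).le ?_ (by positivity) (by positivity)
    rw [div_le_div_iff₀ (by positivity) z0]
    linarith
  have h2 := sum_le_card_nsmul _ _ _ h1
  rw [nsmul_eq_mul, Nat.card_Ico] at h2
  have h3 : ((4 * z - z / 2 : ℕ) : ℝ) ≤ 4 * z := by exact_mod_cast Nat.sub_le _ _
  have h4 : 4 * (z : ℝ) * (a / 32 * (4 / z)) = a / 2 := by field_simp; ring
  have h5 := mul_le_mul_of_nonneg_right h3 (show 0 ≤ a / 32 * (4 / z) by positivity)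
  unfold win
  linarith

theorem tame_of (ν : Measure ℕ) (U : ℕ → ℕ → ℝ) (B : ℝ) (hB : 0 ≤ B)
    (h1 : ∀ J n, |stk (U J) n - 1 / 2| ≤ 1 / 4)
    (h2 : ∀ J i, |U J (i + 1) - U J i| ≤ B * (i + 2) ^ 2)
    (h3 : Tendsto (fun i => ∫ J, |U J (i + 1) - U J i| ∂ν) atTop (𝓝 0)) :
    Tame (ν.map fun J => stk (U J)) (B * 28 ^ 3) := by
  refine ⟨by positivity, ?_, ?_⟩
  · filter_upwards [ae_rng ν fun J => stk (U J)] with w ⟨J, hJ⟩ n
    subst hJ
    refine ⟨⟨by linarith [(abs_le.1 (h1 J n)).1], by linarith [(abs_le.1 (h1 J n)).2]⟩, ?_⟩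
    rcases Nat.eq_zero_or_pos n with rfl | hn
    · simp only [range_zero, sum_empty]
      exact mul_nonneg (by positivity) (rt_nonneg 0)
    have h4 : ∀ i ∈ range (blk n + 1), |U J (i + 1) - U J i| ≤ B * (blk n + 2) ^ 2 := fun i hi => by
      have : (i : ℝ) ≤ blk n := by exact_mod_cast Nat.lt_succ_iff.1 (mem_range.1 hi)
      refine (h2 J i).trans (by gcongr)
    have h5 := sum_le_card_nsmul _ _ _ h4
    rw [nsmul_eq_mul, card_range] at h5
    push_cast at h5
    have h6 := mul_le_mul_of_nonneg_left (blk_cube hn) hB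
    have h7 : 0 ≤ B * ((blk n : ℝ) + 2) ^ 2 := by positivity
    refine (stk_sum _ n).trans (h5.trans ?_)
    nlinarith
  · have e : al (ν.map fun J => stk (U J)) =
        fun m => (∫ J, |U J (blk m + 1) - U J (blk m)| ∂ν) / 2 ^ blk m := funext fun m => by
      rw [al, integral_map Measurable.of_discrete.aemeasurable
        (Measurable.aestronglyMeasurable (by fun_prop)), ← integral_div]
      simp only [stk_abs]
    rw [e]
    exact win_zero (A := fun i => ∫ J, |U J (i + 1) - U J i| ∂ν)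
      (fun i => integral_nonneg fun _ => abs_nonneg _) h3

/-! ### The law of the level -/

noncomputable def pj (j : ℕ) : ℝ := 1 / (((j : ℝ) + 1) * (j + 2))

theorem pj_pos (j : ℕ) : 0 < pj j := by unfold pj; positivity

theorem sum_pj (i : ℕ) : ∑ j ∈ range i, pj j = 1 - 1 / ((i : ℝ) + 1) := by
  induction i with
  | zero => simp
  | succ i ih =>
    rw [sum_range_succ, ih, pj]
    push_cast
    field_simp
    ring

theorem hasSum_pj : HasSum pj 1 := by
  rw [hasSum_iff_tendsto_nat_of_nonneg (fun j => (pj_pos j).le)]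
  simp only [sum_pj]
  simpa using tendsto_one_div_add_atTop_nhds_zero_nat.const_sub (1 : ℝ)

noncomputable def nu : Measure ℕ := Measure.sum fun j => ENNReal.ofReal (pj j) • Measure.dirac j

instance : IsProbabilityMeasure nu :=
  hasSum_pj.isProbabilityMeasure_sum_dirac fun j => (pj_pos j).le

theorem nu_intg (f : ℕ → ℝ) : Integrable f nu ↔ Summable fun j => pj j * |f j| := by
  rw [nu, integrable_sum_dirac_iff (by simp)]
  simp only [ENNReal.toReal_ofReal (pj_pos _).le, Real.norm_eq_abs]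

theorem hs_pj (f : ℕ → ℝ) (i : ℕ) (α : ℝ) (h : ∀ j, i ≤ j → f j = α) :
    HasSum (fun j => pj j * f j) (∑ j ∈ range i, pj j * f j + α / (i + 1)) := by
  have h1 : HasSum (fun j => pj j * (f j - α)) (∑ j ∈ range i, pj j * (f j - α)) :=
    hasSum_sum_of_ne_finset_zero fun j hj => by
      rw [h j (not_lt.1 fun h' => hj (mem_range.2 h')), sub_self, mul_zero]
  convert h1.add (hasSum_pj.mul_right α) using 1
  · funext j
    ring
  · simp only [mul_sub, sum_sub_distrib]
    rw [← sum_mul, sum_pj]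
    ring

theorem nu_int (f : ℕ → ℝ) (i : ℕ) (α : ℝ) (h : ∀ j, i ≤ j → f j = α) :
    Integrable f nu ∧ ∫ j, f j ∂nu = ∑ j ∈ range i, pj j * f j + α / (i + 1) := by
  refine ⟨(nu_intg f).2 (hs_pj (fun j => |f j|) i |α| fun j hj => by rw [h j hj]).summable, ?_⟩
  rw [nu, integral_sum_dirac (by simp), ← (hs_pj f i α h).tsum_eq]
  simp only [ENNReal.toReal_ofReal (pj_pos _).le, smul_eq_mul]

/-! ### The drift profile of level `J` -/

section
variable (r s : ℕ → ℝ)

noncomputable def cs (i : ℕ) : ℝ := ∑ j ∈ range i, (r j - pj j * s j)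

noncomputable def us (J i : ℕ) : ℝ := if i ≤ J then (i + 1) * cs r s i else s J

theorem us_zero (J : ℕ) : us r s J 0 = 0 := by simp [us, cs]

theorem us_int (i : ℕ) :
    Integrable (fun J => us r s J i) nu ∧ ∫ J, us r s J i ∂nu = ∑ j ∈ range i, r j := by
  obtain ⟨h1, h2⟩ := nu_int (fun J => us r s J i) i ((i + 1) * cs r s i) fun j hj => if_pos hj
  refine ⟨h1, ?_⟩
  rw [h2, sum_congr rfl fun j hj => by rw [us, if_neg (not_le.2 (mem_range.1 hj))],
    mul_div_cancel_left₀ _ (by positivity), cs, sum_sub_distrib]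
  ring

theorem us_lt {J i : ℕ} (h : i < J) :
    us r s J (i + 1) - us r s J i = cs r s i + (i + 2) * (r i - pj i * s i) := by
  rw [us, us, if_pos (show i + 1 ≤ J from h), if_pos h.le, cs, sum_range_succ, ← cs]
  push_cast
  ring

theorem us_eq (J : ℕ) : us r s J (J + 1) - us r s J J = s J - (J + 1) * cs r s J := by
  rw [us, us, if_neg (by omega), if_pos le_rfl]

theorem us_gt {J i : ℕ} (h : J < i) : us r s J (i + 1) - us r s J i = 0 := by
  rw [us, us, if_neg (by omega), if_neg (by omega), sub_self]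

variable {r s} {B : ℝ}

theorem inc_le (hr : ∀ j, |r j| ≤ B / (j + 1)) (hs : ∀ j, |s j| ≤ B * (j + 2)) (j : ℕ) :
    |r j - pj j * s j| ≤ 2 * B * (1 / (j + 1)) := by
  have h1 : |pj j * s j| ≤ pj j * (B * (j + 2)) := by
    rw [abs_mul, abs_of_pos (pj_pos j)]
    exact mul_le_mul_of_nonneg_left (hs j) (pj_pos j).le
  have h2 : pj j * (B * (j + 2)) = B / (j + 1) := by
    rw [pj]
    field_simp
  calc _ ≤ |r j| + |pj j * s j| := abs_sub _ _
    _ ≤ B / (j + 1) + B / (j + 1) := add_le_add (hr j) (h1.trans h2.le)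
    _ = _ := by ring

/-- The harmonic numbers. -/
noncomputable def hm (i : ℕ) : ℝ := ∑ j ∈ range i, 1 / ((j : ℝ) + 1)

theorem hm_mono : Monotone hm := fun _ _ h =>
  sum_le_sum_of_subset_of_nonneg (range_mono h) fun _ _ _ => by positivity

theorem hm_nonneg (i : ℕ) : 0 ≤ hm i := sum_nonneg fun _ _ => by positivity

theorem hm_le (i : ℕ) : hm i ≤ i := by
  have h : ∀ j ∈ range i, 1 / ((j : ℝ) + 1) ≤ 1 := fun j _ =>
    div_le_one_of_le₀ (by linarith [Nat.cast_nonneg (α := ℝ) j]) (by positivity)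
  exact (sum_le_card_nsmul _ _ _ h).trans (by simp)

theorem hm_log (i : ℕ) : hm i ≤ 1 + Real.log (i + 2) := by
  have h1 := harmonic_le_one_add_log (i + 2)
  have h2 : hm (i + 2) = (harmonic (i + 2) : ℝ) := by
    rw [harmonic, Rat.cast_sum]
    refine sum_congr rfl fun n _ => ?_
    push_cast
    ring
  have h3 := hm_mono (show i ≤ i + 2 by omega)
  push_cast at h1
  linarith

theorem cs_le (hr : ∀ j, |r j| ≤ B / (j + 1)) (hs : ∀ j, |s j| ≤ B * (j + 2)) (i : ℕ) :
    |cs r s i| ≤ 2 * B * hm i := by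
  rw [hm, mul_sum]
  exact (abs_sum_le_sum_abs _ _).trans (sum_le_sum fun j _ => inc_le hr hs j)

theorem g_lt (hB : 0 ≤ B) (hr : ∀ j, |r j| ≤ B / (j + 1)) (hs : ∀ j, |s j| ≤ B * (j + 2)) (i : ℕ) :
    |cs r s i + (i + 2) * (r i - pj i * s i)| ≤ 2 * B * hm i + 4 * B := by
  have h1 := mul_le_mul_of_nonneg_left (inc_le hr hs i) (show (0 : ℝ) ≤ i + 2 by positivity)
  have h2 : ((i : ℝ) + 2) * (1 / (i + 1)) ≤ 2 := by
    rw [mul_one_div, div_le_iff₀ (by positivity)]
    linarith [Nat.cast_nonneg (α := ℝ) i]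
  have h3 := mul_le_mul_of_nonneg_left h2 hB
  refine (abs_add_le _ _).trans (add_le_add (cs_le hr hs i) ?_)
  rw [abs_mul, abs_of_pos (show (0 : ℝ) < i + 2 by positivity)]
  linarith

theorem g_eq (hr : ∀ j, |r j| ≤ B / (j + 1)) (hs : ∀ j, |s j| ≤ B * (j + 2)) (i : ℕ) :
    |s i - (i + 1) * cs r s i| ≤ B * (i + 2) + (i + 1) * (2 * B * hm i) := by
  refine (abs_sub _ _).trans (add_le_add (hs i) ?_)
  rw [abs_mul, abs_of_pos (show (0 : ℝ) < i + 1 by positivity)]
  exact mul_le_mul_of_nonneg_left (cs_le hr hs i) (by positivity)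

theorem g_sq (hB : 0 ≤ B) (hr : ∀ j, |r j| ≤ B / (j + 1)) (hs : ∀ j, |s j| ≤ B * (j + 2))
    (J i : ℕ) : |us r s J (i + 1) - us r s J i| ≤ 2 * B * (i + 2) ^ 2 := by
  have i0 : (0 : ℝ) ≤ i := Nat.cast_nonneg i
  have h1 := mul_le_mul_of_nonneg_left (hm_le i) hB
  have h2 : 0 ≤ B * i := by positivity
  have h3 : 0 ≤ B * i * i := by positivity
  rcases lt_trichotomy i J with h | rfl | h
  · rw [us_lt r s h]
    refine (g_lt hB hr hs i).trans (by nlinarith)
  · rw [us_eq]
    refine (g_eq hr hs i).trans (by nlinarith)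
  · rw [us_gt r s h, abs_zero]
    positivity

theorem g_sum (hB : 0 ≤ B) (hr : ∀ j, |r j| ≤ B / (j + 1)) (hs : ∀ j, |s j| ≤ B * (j + 2))
    (J L : ℕ) : ∑ i ∈ range L, |us r s J (i + 1) - us r s J i| ≤
      9 * B * ((J + 2) * (1 + Real.log (J + 2))) := by
  have h0 : ∑ i ∈ range L, |us r s J (i + 1) - us r s J i| ≤
      ∑ i ∈ range (J + 1), |us r s J (i + 1) - us r s J i| := by
    rw [← sum_filter_ne_zero]
    refine sum_le_sum_of_subset_of_nonneg (fun i hi => mem_range.2 (Nat.lt_succ_of_le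
      (not_lt.1 fun h => (mem_filter.1 hi).2 ?_))) fun _ _ _ => abs_nonneg _
    rw [us_gt r s h, abs_zero]
  have h1 : ∀ i ∈ range J, |us r s J (i + 1) - us r s J i| ≤ 2 * B * hm J + 4 * B := fun i hi => by
    rw [us_lt r s (mem_range.1 hi)]
    have := mul_le_mul_of_nonneg_left (hm_mono (mem_range.1 hi).le) hB
    linarith [g_lt hB hr hs i]
  have h2 := sum_le_card_nsmul _ _ _ h1
  rw [nsmul_eq_mul, card_range] at h2
  rw [sum_range_succ, us_eq] at h0
  have h3 := g_eq hr hs J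
  have J0 : (0 : ℝ) ≤ J := Nat.cast_nonneg J
  have h4 : 0 ≤ Real.log ((J : ℝ) + 2) := Real.log_nonneg (by linarith)
  have h5 := mul_le_mul_of_nonneg_left (hm_log J) (show 0 ≤ B * (J + 2) by positivity)
  have h6 : 0 ≤ B * hm J := mul_nonneg hB (hm_nonneg J)
  have h7 : 0 ≤ B * (J + 2) * Real.log ((J : ℝ) + 2) := by positivity
  have h8 : 0 ≤ B * J := by positivity
  nlinarith

theorem g_mean (hB : 0 ≤ B) (hr : ∀ j, |r j| ≤ B / (j + 1)) (hs : ∀ j, |s j| ≤ B * (j + 2)) :
    Tendsto (fun i => ∫ J, |us r s J (i + 1) - us r s J i| ∂nu) atTop (𝓝 0) := by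
  have t1 : Tendsto (fun i : ℕ => 1 / ((i : ℝ) + 1)) atTop (𝓝 0) :=
    tendsto_one_div_add_atTop_nhds_zero_nat
  have t2 := (t1.const_mul (5 * B)).add (t1.cesaro.const_mul (4 * B))
  simp only [mul_zero, add_zero] at t2
  refine squeeze_zero' (Eventually.of_forall fun i => integral_nonneg fun _ => abs_nonneg _) ?_ t2
  filter_upwards [eventually_ge_atTop 1] with i hi
  have i1 : (1 : ℝ) ≤ i := by exact_mod_cast hi
  rw [(nu_int (fun J => |us r s J (i + 1) - us r s J i|) (i + 1) _ fun j hj => by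
      rw [us_lt r s hj]).2, sum_range_succ, us_eq,
    sum_eq_zero fun j hj => by rw [us_gt r s (mem_range.1 hj), abs_zero, mul_zero], ← hm]
  have h1 := mul_le_mul_of_nonneg_left (g_eq hr hs i) (pj_pos i).le
  have h2 := div_le_div_of_nonneg_right (g_lt hB hr hs i) (show (0 : ℝ) ≤ i + 1 + 1 by positivity)
  have h3 : pj i * (B * (i + 2) + (i + 1) * (2 * B * hm i)) =
      B * (1 / (i + 1)) + 2 * (B * hm i) * (1 / (i + 2)) := by
    rw [pj]
    field_simp
  have h4 : (2 * B * hm i + 4 * B) / (i + 1 + 1) =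
      2 * (B * hm i) * (1 / (i + 2)) + 4 * B * (1 / (i + 2)) := by
    rw [show (i : ℝ) + 1 + 1 = i + 2 by ring]
    ring
  have h5 : 1 / ((i : ℝ) + 2) ≤ 1 / (i + 1) := one_div_le_one_div_of_le (by positivity) (by linarith)
  have h6 : 1 / ((i : ℝ) + 2) ≤ (i : ℝ)⁻¹ := by
    rw [← one_div]
    exact one_div_le_one_div_of_le (by positivity) (by linarith)
  have h7 := mul_le_mul_of_nonneg_left h5 hB
  have h8 := mul_le_mul_of_nonneg_left h6 (mul_nonneg hB (hm_nonneg i))
  push_cast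
  linarith

theorem mom_le {p : ℝ} (h0 : 0 < p) (h1 : p < 1) {D : ℝ} (hD : 0 ≤ D) :
    Integrable (fun J : ℕ => (D * ((J + 2) * (1 + Real.log (J + 2)))) ^ p) nu := by
  set γ := (1 - p) / 2 with hγ
  have g0 : 0 < γ := by linarith
  have s1 : Summable fun J : ℕ => ((J + 2 : ℕ) : ℝ) ^ (-(1 + γ)) :=
    (summable_nat_add_iff (f := fun J : ℕ => (J : ℝ) ^ (-(1 + γ))) 2).2
      (Real.summable_nat_rpow.2 (by linarith))
  refine (nu_intg _).2 (Summable.of_nonneg_of_le (fun J => mul_nonneg (pj_pos J).le (abs_nonneg _))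
    (fun J => ?_) (s1.mul_left (2 * (D * (1 + 1 / γ)) ^ p)))
  have J0 : (0 : ℝ) ≤ J := Nat.cast_nonneg J
  have hp : pj J ≤ 2 * ((J : ℝ) + 2) ^ (-2 : ℝ) := by
    rw [pj, Real.rpow_neg (by linarith), Real.rpow_two, ← div_eq_mul_inv,
      div_le_div_iff₀ (by positivity) (by positivity)]
    nlinarith
  push_cast
  have x1 : (1 : ℝ) ≤ (J : ℝ) + 2 := by linarith
  generalize (J : ℝ) + 2 = x at *
  have x0 : 0 < x := by linarith
  have l0 : 0 ≤ Real.log x := Real.log_nonneg x1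
  have l1 := Real.log_le_rpow_div x0.le g0
  have l2 : 1 ≤ x ^ γ := Real.one_le_rpow x1 g0.le
  have a1 : D * (x * (1 + Real.log x)) ≤ D * (1 + 1 / γ) * x ^ (1 + γ) := by
    rw [Real.rpow_add x0, Real.rpow_one, mul_assoc]
    refine mul_le_mul_of_nonneg_left ?_ hD
    calc x * (1 + Real.log x) ≤ x * (x ^ γ + x ^ γ / γ) :=
          mul_le_mul_of_nonneg_left (by linarith) x0.le
      _ = _ := by ring
  have a2 := Real.rpow_le_rpow (by positivity) a1 h0.le
  rw [Real.mul_rpow (x := D * (1 + 1 / γ)) (by positivity) (by positivity),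
    ← Real.rpow_mul x0.le] at a2
  have a3 : x ^ ((1 + γ) * p) ≤ x ^ (1 - γ) :=
    Real.rpow_le_rpow_of_exponent_le x1 (by nlinarith)
  have a4 : x ^ (-(1 + γ)) = x ^ (-2 : ℝ) * x ^ (1 - γ) := by
    rw [← Real.rpow_add x0]
    congr 1
    ring
  rw [abs_of_nonneg (by positivity), a4]
  calc _ ≤ 2 * x ^ (-2 : ℝ) * ((D * (1 + 1 / γ)) ^ p * x ^ (1 - γ)) :=
        mul_le_mul hp (a2.trans (mul_le_mul_of_nonneg_left a3 (by positivity))) (by positivity)
          (by positivity)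
    _ = _ := by ring

theorem build {η : ℝ} (hη : 0 < η) (hB : 0 ≤ B) (hr : ∀ j, |r j| ≤ B / (j + 1))
    (hs : ∀ j, |s j| ≤ B * (j + 2)) :
    ∃ (F : ℕ → ℕ → ℝ) (C : ℝ), Tame (nu.map F) C ∧ (∀ J n, |F J n - 1 / 2| ≤ η) ∧
      (∀ J, ∃ M, ∀ n, M ≤ n → F J n = 1 / 2 ∧ psum (F J) n = s J) ∧
      (∀ p : ℝ, 0 < p → p < 1 →
        ∫⁻ J, (∑' i : ℕ, ENNReal.ofReal |2 * F J i - 1|) ^ p ∂nu < ⊤) ∧
      ∀ c a : ℝ, (∀ᶠ L in atTop, a ≤ c * ∑ j ∈ range L, r j) →
        ∀ᶠ n in atTop, a ≤ c * dd (nu.map F) n := by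
  set η' := min η (1 / 4) with hη'
  have e0 : 0 < η' := lt_min hη (by norm_num)
  have t1 := (((tendsto_pow_const_div_const_pow_of_one_lt 2 one_lt_two).comp
    (tendsto_add_atTop_nat 2)).const_mul (4 * B))
  rw [mul_zero] at t1
  obtain ⟨i0, hi0⟩ := eventually_atTop.1 (t1.eventually (gt_mem_nhds e0))
  set U : ℕ → ℕ → ℝ := fun J L => us r s J (L - i0) with hU
  have u1 : ∀ J i, i < i0 → U J (i + 1) - U J i = 0 := fun J i hi => by
    simp only [hU]
    rw [show i + 1 - i0 = 0 by omega, show i - i0 = 0 by omega, sub_self]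
  have u2 : ∀ J i, i0 ≤ i → U J (i + 1) - U J i = us r s J (i - i0 + 1) - us r s J (i - i0) :=
    fun J i hi => by
      simp only [hU]
      rw [show i + 1 - i0 = i - i0 + 1 by omega]
  have u3 : ∀ J i, |U J (i + 1) - U J i| ≤ 2 * B * (i + 2) ^ 2 := fun J i => by
    rcases lt_or_ge i i0 with h | h
    · rw [u1 J i h, abs_zero]
      positivity
    · have : ((i - i0 : ℕ) : ℝ) ≤ i := by exact_mod_cast Nat.sub_le _ _
      rw [u2 J i h]
      exact (g_sq hB hr hs J _).trans (by gcongr)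
  have u4 : ∀ J n, |stk (U J) n - 1 / 2| ≤ η' := fun J n => by
    have h1 := stk_abs (U J) n
    rw [show 2 * stk (U J) n - 1 = 2 * (stk (U J) n - 1 / 2) by ring, abs_mul, abs_two] at h1
    rcases lt_or_ge (blk n) i0 with h | h
    · rw [u1 J _ h, abs_zero, zero_div] at h1
      linarith
    · have h2 := hi0 _ h
      have h3 := div_le_div_of_nonneg_right (u3 J (blk n)) (show (0 : ℝ) ≤ 2 ^ blk n by positivity)
      simp only [Function.comp] at h2
      push_cast at h2
      have h4 : 2 * B * ((blk n : ℝ) + 2) ^ 2 / 2 ^ blk n =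
          2 * (4 * B * (((blk n : ℝ) + 2) ^ 2 / 2 ^ (blk n + 2))) := by
        rw [pow_add]
        ring
      linarith
  have u5 : ∀ J L, ∑ i ∈ range L, |U J (i + 1) - U J i| =
      ∑ i ∈ range (L - i0), |us r s J (i + 1) - us r s J i| := fun J L => by
    induction L with
    | zero => simp
    | succ L ih =>
      rw [sum_range_succ, ih]
      rcases lt_or_ge L i0 with h | h
      · rw [u1 J L h, show L + 1 - i0 = L - i0 by omega, abs_zero, add_zero]
      · rw [u2 J L h, show L + 1 - i0 = L - i0 + 1 by omega, sum_range_succ]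
  have u0 : ∀ J, U J 0 = 0 := fun J => by simp only [hU, Nat.zero_sub, us_zero]
  refine ⟨fun J => stk (U J), _, tame_of nu U (2 * B) (by positivity)
    (fun J n => (u4 J n).trans (min_le_right _ _)) u3 ?_,
    fun J n => (u4 J n).trans (min_le_left _ _), fun J => ⟨2 ^ (J + 1 + i0), fun n hn => ?_⟩,
    fun p p0 p1 => ?_, fun c a h => ?_⟩
  · refine ((g_mean hB hr hs).comp (tendsto_sub_atTop_nat i0)).congr' ?_
    filter_upwards [eventually_ge_atTop i0] with i hi
    simp only [Function.comp, u2 _ i hi]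
  · have h1 := le_blk hn
    have h2 : U J (blk n + 1) - U J (blk n) = 0 := by
      rw [u2 J _ (by omega), us_gt r s (by omega)]
    rw [stk_psum (u0 J)]
    simp only [stk, h2]
    simp only [hU]
    rw [us, if_neg (by omega)]
    simp
  · refine lt_of_le_of_lt (lintegral_mono fun J => ?_)
      (mom_le p0 p1 (show 0 ≤ 9 * B by positivity)).lintegral_lt_top
    have h1 : 0 ≤ Real.log ((J : ℝ) + 2) :=
      Real.log_nonneg (by linarith [Nat.cast_nonneg (α := ℝ) J])
    rw [← ENNReal.ofReal_rpow_of_nonneg (by positivity) p0.le]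
    refine ENNReal.rpow_le_rpow (ENNReal.tsum_le_of_sum_range_le fun n => ?_) p0.le
    rw [← ENNReal.ofReal_sum_of_nonneg fun _ _ => abs_nonneg _]
    refine ENNReal.ofReal_le_ofReal ((stk_sum _ n).trans ?_)
    rw [u5]
    exact g_sum hB hr hs J _
  · have t2 : Tendsto (fun n => blk n - i0) atTop atTop := (tendsto_sub_atTop_nat i0).comp blk_top
    have t3 : Tendsto (fun n => blk n + 1 - i0) atTop atTop :=
      tendsto_atTop_mono (fun n => by omega) t2
    filter_upwards [t2.eventually h, t3.eventually h] with n h2 h3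
    obtain ⟨a1, a2⟩ := us_int r s (blk n - i0)
    obtain ⟨a3, a4⟩ := us_int r s (blk n + 1 - i0)
    rw [dd, integral_map Measurable.of_discrete.aemeasurable (meas_psum n).aestronglyMeasurable]
    simp only [stk_psum (u0 _)]
    simp only [hU]
    have a5 : Integrable (fun J => us r s J (blk n + 1 - i0) - us r s J (blk n - i0)) nu := a3.sub a1
    rw [integral_add a1 (a5.const_mul _), integral_const_mul, integral_sub a3 a1, a2, a4]
    have := th_mem n
    nlinarith [mul_le_mul_of_nonneg_left h2 (sub_nonneg.2 this.2),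
      mul_le_mul_of_nonneg_left h3 this.1]

end

theorem pick_R (R : ℕ∞) : ∃ (t : ℕ → ℝ) (B : ℝ), 0 ≤ B ∧ (∀ j, |t j| ≤ B / (j + 1)) ∧
    (∀ j, 0 ≤ t j) ∧ ∀ k : ℕ,
      ((k : ℕ∞) ≤ R → ∀ᶠ L in atTop, (k : ℝ) + 1 / 3 ≤ ∑ j ∈ range L, t j) ∧
      (R < k → ∀ᶠ L in atTop, ∑ j ∈ range L, t j ≤ (k : ℝ) - 1 / 3) := by
  induction R using ENat.recTopCoe with
  | top =>
    refine ⟨fun j => 1 / (j + 1), 1, zero_le_one, fun j => (abs_of_pos (by positivity)).le,
      fun j => by positivity, fun k => ⟨fun _ => ?_, fun h => absurd h not_top_lt⟩⟩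
    exact Real.tendsto_sum_range_one_div_nat_succ_atTop.eventually_ge_atTop _
  | coe m =>
    have e : ∀ᶠ L in atTop, ∑ j ∈ range L, (if j = 0 then (m : ℝ) + 1 / 2 else 0) = m + 1 / 2 := by
      filter_upwards [eventually_ge_atTop 1] with L hL
      rw [sum_ite_eq', if_pos (mem_range.2 hL)]
    refine ⟨fun j => if j = 0 then m + 1 / 2 else 0, m + 1 / 2, by positivity, fun j => ?_,
      fun j => ?_, fun k => ⟨fun h => e.mono fun L hL => ?_, fun h => e.mono fun L hL => ?_⟩⟩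
    · dsimp only
      split_ifs with h
      · rw [h, abs_of_pos (by positivity)]
        simp
      · rw [abs_zero]
        positivity
    · dsimp only
      split_ifs <;> positivity
    · have : (k : ℝ) ≤ m := by exact_mod_cast h
      linarith
    · have : (m : ℝ) + 1 ≤ k := by exact_mod_cast (show m < k by exact_mod_cast h)
      linarith

theorem pick_d (δ : ℝ≥0∞) : ∃ (s : ℕ → ℝ) (B : ℝ), (∀ j, 0 ≤ s j ∧ s j ≤ B * (j + 2)) ∧
    ∫⁻ j, ENNReal.ofReal (s j) ∂nu = δ ∧ (δ ≠ ⊤ → ∀ j, s j = δ.toReal) := by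
  by_cases h : δ = ⊤
  · refine ⟨fun j => j + 2, 1, fun j => ⟨by positivity, (one_mul _).ge⟩, ?_, fun h' => absurd h h'⟩
    by_contra h1
    rw [h] at h1
    have h2 := (nu_intg _).1 ((lintegral_ofReal_ne_top_iff_integrable
      Measurable.of_discrete.aestronglyMeasurable (ae_of_all _ fun j => by positivity)).1 h1)
    refine Real.not_summable_one_div_natCast
      ((summable_nat_add_iff (f := fun i : ℕ => (1 : ℝ) / (i : ℝ)) 1).1 (h2.congr fun j => ?_))
    rw [pj, abs_of_pos (by positivity)]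
    push_cast
    field_simp
  · refine ⟨fun _ => δ.toReal, δ.toReal, fun j => ⟨ENNReal.toReal_nonneg, ?_⟩, ?_, fun _ _ => rfl⟩
    · exact le_mul_of_one_le_right ENNReal.toReal_nonneg (by linarith [Nat.cast_nonneg (α := ℝ) j])
    · simp [ENNReal.ofReal_toReal h]

end Pool.Agent.P.MP_c7fa75_pr.SP
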