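import Pool.Agent.P.MP_c7fa75_pr.R2.All

/-! The windowed criterion: the limit of the expected partial drifts decides. -/

set_option autoImplicit false

namespace Pool.Agent.P.MP_c7fa75_pr.SP

open MeasureTheory ProbabilityTheory Filter Topology Finset
open scoped ENNReal Classical
open Pool.Agent.P.MP_c7fa75_pr.T Pool.Agent.P.MP_c7fa75_pr.R2

theorem Ex_congr {w w' : ℕ → ℝ} {n : ℕ} (h : ∀ i, i < n → w i = w' i) (y : ℕ) (V : ℕ → ℕ → ℝ) :
    Ex w y n V = Ex w' y n V := by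
  unfold Ex
  refine integral_congr_ae (ae_of_all _ fun u => ?_)
  have hh : ∀ i, i < n → arr w u i = arr w' u i := fun i hi => by simp only [arr, h i hi]
  have := tau_le (arr w' u) y n
  simp only
  rw [tau_congr y hh, Rr_congr fun i hi => hh i (by omega), Ll_congr fun i hi => hh i (by omega)]

/-- The stack cut at index `N`. -/
noncomputable def cut (w : ℕ → ℝ) (N : ℕ) : ℕ → ℝ := fun i => if i < N then w i else 1 / 2

theorem cut_mem {w : ℕ → ℝ} (hw : ∀ i, w i ∈ Set.Icc (0 : ℝ) 1) (N i : ℕ) :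
    cut w N i ∈ Set.Icc (0 : ℝ) 1 := by
  unfold cut
  split_ifs
  · exact hw i
  · constructor <;> norm_num

theorem cut_sum (w : ℕ → ℝ) (N n : ℕ) :
    ∑ i ∈ range n, |2 * cut w N i - 1| ≤ ∑ i ∈ range N, |2 * w i - 1| := by
  have e : ∀ i, |2 * cut w N i - 1| = if i < N then |2 * w i - 1| else 0 := fun i => by
    unfold cut
    split_ifs <;> simp
  simp only [e]
  rw [← sum_filter]
  refine sum_le_sum_of_subset_of_nonneg (fun i hi => ?_) fun _ _ _ => abs_nonneg _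
  exact mem_range.2 (mem_filter.1 hi).2

theorem cut_psum (w : ℕ → ℝ) (z : ℕ) : psum (cut w (4 * z)) z = psum w z :=
  sum_congr rfl fun i hi => by rw [cut, if_pos (by have := mem_range.1 hi; omega)]

theorem cut_win (w : ℕ → ℝ) (z : ℕ) :
    win (fun i => |2 * cut w (4 * z) i - 1|) z = win (fun i => |2 * w i - 1|) z :=
  sum_congr rfl fun i hi => by simp only [cut, if_pos (mem_Ico.1 hi).2]

theorem cut_Ex (w : ℕ → ℝ) (N y : ℕ) (V : ℕ → ℕ → ℝ) : Ex (cut w N) y N V = Ex w y N V :=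
  Ex_congr (fun i hi => by rw [cut, if_pos hi]) y V

theorem Ex_mg {w : ℕ → ℝ} (hw : ∀ i, w i ∈ Set.Icc (0 : ℝ) 1) (y n : ℕ) : Ex w y n (mg w) = 0 := by
  have a := Ex_le hw y n (V := mg w) (fun a b _ => by rw [mg_right, mg_left]; apply le_of_eq; ring)
  have b := Ex_le hw y n (V := fun a b => - mg w a b)
    (fun a b _ => by rw [mg_right, mg_left]; apply le_of_eq; ring)
  rw [Ex_neg] at b
  rw [MOMx.mg00] at a b
  linarith

theorem psum_lip {w : ℕ → ℝ} (hw : ∀ i, w i ≤ 3 / 4) {m n : ℕ} (h : m ≤ n) :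
    psum w n - psum w m ≤ ((n : ℝ) - m) / 2 := by
  induction n, h using Nat.le_induction with
  | base => simp
  | succ n hn ih =>
    rw [psum_succ]
    push_cast
    linarith [hw n]

theorem qlo (C0 : ℝ) (hC0 : 0 ≤ C0) : ∃ C : ℝ, 0 ≤ C ∧ ∀ (w : ℕ → ℝ),
    (∀ i, w i ∈ Set.Icc (0 : ℝ) 1) → ∀ (A : ℝ) (k z : ℕ) (t κ : ℝ),
    ∑ i ∈ range (4 * z), |2 * w i - 1| ≤ A → 1 ≤ k → 2 * k ≤ z → 1 ≤ t → t ^ 2 ≤ z → 0 ≤ κ →
    κ ≤ 2 → ff (fun _ => κ) z ≤ C0 * z * t * gg (fun _ => κ) z →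
    ff (fun _ => κ) z + gg (fun _ => κ) z * (1 - k + psum w z - κ -
      win (fun i => |2 * w i - 1|) z - C * (1 / t + t * ((k + A) ^ 2 / z))) ≤
      Ex w (z + 1 - k) (4 * z) (fun a _ => ff (fun _ => κ) a) := by
  obtain ⟨C, hC, h⟩ := got_QLO C0 hC0
  refine ⟨C, hC, fun w hw A k z t κ hA hk hz ht htz h0 h2 hff => ?_⟩
  have h1 := h (cut w (4 * z)) (cut_mem hw _) A (fun n => (cut_sum w _ n).trans hA) k z t κ
    (fun _ => κ) hk hz ht htz h0 h2 (fun _ _ _ => le_rfl) hff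
  rw [cut_Ex, cut_psum, cut_win] at h1
  refine le_trans ?_ h1
  have h3 : C * (1 / t + t * min (((k : ℝ) + A) ^ 2 / z) (k + A)) ≤
      C * (1 / t + t * ((k + A) ^ 2 / z)) :=
    mul_le_mul_of_nonneg_left (add_le_add le_rfl
      (mul_le_mul_of_nonneg_left (min_le_left _ _) (by linarith))) hC
  exact add_le_add le_rfl (mul_le_mul_of_nonneg_left (by linarith) (gg_pos _ z).le)

theorem qup (w : ℕ → ℝ) (hw : ∀ i, w i ∈ Set.Icc (0 : ℝ) 1) (hw3 : ∀ i, w i ≤ 3 / 4) (A : ℝ)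
    (k z N : ℕ) (t κb : ℝ) (hA : ∑ i ∈ range (4 * z), |2 * w i - 1| ≤ A) (hk : 1 ≤ k)
    (hkz : 2 * k ≤ z) (hN : 4 * z ≤ N) (ht : 1 ≤ t) (htz : t ^ 2 ≤ z) (hB : (k : ℝ) + A ≤ z)
    (h0 : 0 ≤ κb) (h2 : κb ≤ 2) :
    Ex w (z + 1 - k) N (fun a _ => ff (fun _ => κb) a) ≤
      ff (fun _ => κb) z + gg (fun _ => κb) z * (1 - k + psum w z - κb +
        win (fun i => |2 * w i - 1|) z + 1000000 * (1 / t + t * ((k + A) ^ 2 / z))) := by
  set κ : ℕ → ℝ := fun _ => κb with hκ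
  have k1 : (1 : ℝ) ≤ k := by exact_mod_cast hk
  have kz : 2 * (k : ℝ) ≤ z := by exact_mod_cast hkz
  have z0 : (0 : ℝ) < z := by linarith
  have t0 : 0 < t := by linarith
  have hy : ((z + 1 - k : ℕ) : ℝ) = z + 1 - k := by
    rw [Nat.cast_sub (by omega)]; push_cast; ring
  have g0 := gg_pos κ z
  have hP := fun x => got_PUP κ κb t z x (fun _ => h0) h0 h2 ht htz (fun _ _ _ => le_rfl)
  obtain ⟨s1, s2, s3, s4⟩ := got_SMOM (cut w (4 * z)) (cut_mem hw _) A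
    (fun n => (cut_sum w _ n).trans hA) k z t hk hkz ht htz hB
  rw [cut_Ex] at s1 s2 s3 s4
  rw [cut_psum, cut_win] at s1
  set c2 : ℝ := -(κb / (2 * z)) + 6 / (z * t) with hc2
  set c4 : ℝ := 64 * t / (z : ℝ) ^ 3 + 3 / (16 * (z : ℝ) ^ 3) with hc4
  set V1 : ℕ → ℕ → ℝ := fun a b => ff κ z + gg κ z * ((((((a : ℝ) - b + 1 - k) +
    c2 * ((a : ℝ) - b + 1 - k) ^ 2) + 1 / t) + c4 * ((a : ℝ) - b + 1 - k) ^ 4) - 2 * mg w a b)
    with hV1
  set V2 : ℕ → ℕ → ℝ := fun a b => gg κ z * (2 * mg w a b) with hV2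
  have hPhi : ∀ s : ℝ, s + c2 * s ^ 2 + 1 / t + c4 * s ^ 4 =
      Phi 1 κb 64 z t s + 3 / (16 * (z : ℝ) ^ 3) * s ^ 4 := fun s => by
    unfold Phi; rw [hc2, hc4]; ring
  have pt : ∀ e : ℕ → Bool, ff κ (Rr e (tau e (z + 1 - k) N)) ≤
      V1 (Rr e (tau e (z + 1 - k) (4 * z))) (Ll e (tau e (z + 1 - k) (4 * z))) +
      V2 (Rr e (tau e (z + 1 - k) N)) (Ll e (tau e (z + 1 - k) N)) := by
    intro e
    have r1 := reach_tau e (z + 1 - k) (4 * z)
    have r2 := reach_tau e (z + 1 - k) N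
    have m1 := Rr_mono e (tau_mono e (z + 1 - k) hN)
    have m2 := Ll_mono e (tau_mono e (z + 1 - k) hN)
    simp only [hV1, hV2, hPhi]
    rcases r1.1.eq_or_lt with hb | hb
    · rw [tau_frozen hb hN, hb, hy]
      have e1 : (Rr e (tau e (z + 1 - k) (4 * z)) : ℝ) - (z + 1 - k) + 1 - k =
          Rr e (tau e (z + 1 - k) (4 * z)) - z := by ring
      rw [e1]
      have := (hP (Rr e (tau e (z + 1 - k) (4 * z)))).1
      have h3 : 0 ≤ gg κ z * (3 / (16 * (z : ℝ) ^ 3) *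
          ((Rr e (tau e (z + 1 - k) (4 * z)) : ℝ) - z) ^ 4) := by positivity
      linarith
    · have hab := r1.2.2 hb
      generalize Rr e (tau e (z + 1 - k) (4 * z)) = a at *
      generalize Ll e (tau e (z + 1 - k) (4 * z)) = b at *
      generalize Rr e (tau e (z + 1 - k) N) = a' at *
      generalize Ll e (tau e (z + 1 - k) N) = b' at *
      have q1 : (a : ℝ) + b = 4 * z := by exact_mod_cast hab
      have q2 : (b : ℝ) + k ≤ z := by exact_mod_cast (show b + k ≤ z by omega)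
      have q3 : (b' : ℝ) ≤ z + 1 - k := by rw [← hy]; exact_mod_cast r2.1
      have q4 : (0 : ℝ) ≤ b := Nat.cast_nonneg b
      obtain ⟨p1, p2⟩ := QUPx.big (s := (a : ℝ) - b + 1 - k) z0 ht h2 (by linarith)
      have d1 := psum_lip hw3 (show a + b ≤ a' + b' by omega)
      push_cast at d1
      have h3 : gg κ z * ((a' : ℝ) - z) ≤ gg κ z * (Phi 1 κb 64 z t ((a : ℝ) - b + 1 - k) +
          3 / (16 * (z : ℝ) ^ 3) * ((a : ℝ) - b + 1 - k) ^ 4 - 2 * mg w a b + 2 * mg w a' b') :=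
        mul_le_mul_of_nonneg_left (by unfold mg; linarith) g0.le
      have := (hP a').2
      linarith
  have h1 : Ex w (z + 1 - k) N (fun a _ => ff κ a) ≤
      Ex w (z + 1 - k) (4 * z) V1 + Ex w (z + 1 - k) N V2 := by
    unfold Ex
    rw [← integral_add (intg w _ _ V1) (intg w _ _ V2)]
    exact integral_mono (intg w _ N (fun a _ => ff κ a)) ((intg w _ _ V1).add (intg w _ _ V2))
      fun u => pt _
  rw [hV1, hV2, Ex_add, Ex_const, Ex_mul, Ex_mul, Ex_sub, Ex_add, Ex_add, Ex_add, Ex_mul, Ex_mul,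
    Ex_const, Ex_mul, Ex_mul, Ex_mg hw, Ex_mg hw] at h1
  have s5 := sub_le_iff_le_add'.1 (abs_le.1 s1).2
  have h5 := QUPx.fin ht htz h0 h2 s5 s2 s3 s4
  have h6 := mul_le_mul_of_nonneg_left h5 g0.le
  linarith

/-- The fourth root. -/
noncomputable def rt (n : ℕ) : ℝ := (n : ℝ) ^ (1 / 4 : ℝ)

theorem rt_nonneg (n : ℕ) : 0 ≤ rt n := Real.rpow_nonneg (Nat.cast_nonneg n) _

theorem rt_pow (n : ℕ) : rt n ^ 4 = n := by
  rw [rt, ← Real.rpow_natCast, ← Real.rpow_mul (Nat.cast_nonneg n)]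
  norm_num

theorem one_le_rt {n : ℕ} (h : 1 ≤ n) : 1 ≤ rt n :=
  Real.one_le_rpow (by exact_mod_cast h) (by norm_num)

theorem rt_four (n : ℕ) : rt (4 * n) ≤ 2 * rt n := by
  refine le_of_pow_le_pow_left₀ (n := 4) (by norm_num) (by linarith [rt_nonneg n]) ?_
  rw [mul_pow, rt_pow, rt_pow]
  push_cast
  linarith [Nat.cast_nonneg (α := ℝ) n]

theorem rt_tendsto : Tendsto rt atTop atTop :=
  (tendsto_rpow_atTop (by norm_num)).comp tendsto_natCast_atTop_atTop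

/-- Uniformly elliptic stacks with slowly growing absolute drift and small windows. -/
def Tame (P0 : Measure (ℕ → ℝ)) (C : ℝ) : Prop :=
  0 ≤ C ∧ (∀ᵐ w ∂P0, ∀ n, (1 / 4 ≤ w n ∧ w n ≤ 3 / 4) ∧
    ∑ i ∈ range n, |2 * w i - 1| ≤ C * rt n) ∧ Tendsto (win (al P0)) atTop (𝓝 0)

section
variable {P0 : Measure (ℕ → ℝ)} [IsProbabilityMeasure P0] {C : ℝ}

omit [IsProbabilityMeasure P0] in
theorem Tame.in01 (h : Tame P0 C) : In01 P0 :=
  h.2.1.mono fun w hw i => ⟨by linarith [(hw i).1.1], by linarith [(hw i).1.2]⟩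

theorem Tame.wl (h : Tame P0 C) : Wl P0 := by
  have h1 : ∀ᵐ w ∂P0, w ∈ {w : ℕ → ℝ | ∀ n, w n < 1} :=
    h.2.1.mono fun w hw i => by linarith [(hw i).1.2]
  unfold Wl
  rw [(prob_compl_eq_zero_iff Mainx.meas_l).1 (mem_ae_iff.1 h1)]
  exact one_pos

theorem int_abs (h : In01 P0) (i : ℕ) : Integrable (fun w : ℕ → ℝ => 2 * w i - 1) P0 := by
  refine Integrable.of_bound (Measurable.aestronglyMeasurable (by fun_prop)) 1 ?_
  unfold In01 at h
  filter_upwards [h] with w hw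
  rw [Real.norm_eq_abs, abs_le]
  constructor <;> linarith [(hw i).1, (hw i).2]

theorem int_win (h : In01 P0) (z : ℕ) : Integrable (fun w => psum w z) P0 ∧
    Integrable (fun w : ℕ → ℝ => win (fun i => |2 * w i - 1|) z) P0 ∧
    ∫ w, win (fun i => |2 * w i - 1|) z ∂P0 = win (al P0) z :=
  ⟨integrable_finsetSum _ fun i _ => int_abs h i,
    integrable_finsetSum _ fun i _ => (int_abs h i).abs,
    integral_finsetSum _ fun i _ => (int_abs h i).abs⟩

omit [IsProbabilityMeasure P0] in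
theorem err_small (h : Tame P0 C) (C1 : ℝ) (k : ℕ) : ∀ᶠ z : ℕ in atTop, 2 * k + 1 ≤ z ∧
    (k : ℝ) + 2 * C * rt z ≤ z ∧
    win (al P0) z + C1 * (1 / rt z + rt z * ((k + 2 * C * rt z) ^ 2 / z)) ≤ 1 / 12 := by
  have hC := h.1
  have h1 : Tendsto (fun z => win (al P0) z + |C1| * (1 + (k + 2 * C) ^ 2) * (rt z)⁻¹) atTop
      (𝓝 (0 + |C1| * (1 + (k + 2 * C) ^ 2) * 0)) :=
    h.2.2.add (rt_tendsto.inv_tendsto_atTop.const_mul _)
  rw [mul_zero, add_zero] at h1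
  filter_upwards [eventually_ge_atTop (2 * k + 1), rt_tendsto.eventually_ge_atTop (k + 2 * C),
    h1.eventually (gt_mem_nhds (show (0 : ℝ) < 1 / 12 by norm_num))] with z hz h2 h3
  have u1 := one_le_rt (show 1 ≤ z by omega)
  have u4 := rt_pow z
  have k0 : (0 : ℝ) ≤ k := Nat.cast_nonneg k
  generalize rt z = u at *
  have u0 : 0 < u := by linarith
  have a1 : (k : ℝ) + 2 * C * u ≤ (k + 2 * C) * u := by nlinarith
  refine ⟨hz, ?_, le_trans (add_le_add le_rfl ?_) h3.le⟩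
  · rw [← u4]
    have a2 : ((k : ℝ) + 2 * C) * u ≤ u * u := mul_le_mul_of_nonneg_right h2 u0.le
    have a3 : u * u * 1 ≤ u * u * (u * u) :=
      mul_le_mul_of_nonneg_left (by nlinarith) (by positivity)
    nlinarith
  · have a2 : ((k : ℝ) + 2 * C * u) ^ 2 ≤ ((k + 2 * C) * u) ^ 2 :=
      pow_le_pow_left₀ (by positivity) a1 2
    have a3 : u * (((k : ℝ) + 2 * C * u) ^ 2 / z) ≤ u * (((k + 2 * C) * u) ^ 2 / u ^ 4) := by
      rw [← u4]
      exact mul_le_mul_of_nonneg_left (div_le_div_of_nonneg_right a2 (by positivity)) u0.le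
    have a4 : 1 / u + u * ((((k : ℝ) + 2 * C) * u) ^ 2 / u ^ 4) = (1 + (k + 2 * C) ^ 2) * u⁻¹ := by
      field_simp
    have a5 : 0 ≤ 1 / u + u * (((k : ℝ) + 2 * C * u) ^ 2 / z) := by positivity
    calc C1 * (1 / u + u * (((k : ℝ) + 2 * C * u) ^ 2 / z))
        ≤ |C1| * (1 / u + u * (((k : ℝ) + 2 * C * u) ^ 2 / z)) :=
          mul_le_mul_of_nonneg_right (le_abs_self _) a5
      _ ≤ |C1| * ((1 + (k + 2 * C) ^ 2) * u⁻¹) :=
          mul_le_mul_of_nonneg_left (by linarith) (abs_nonneg _)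
      _ = _ := by ring

theorem rt_sq {z : ℕ} (hz : 1 ≤ z) : rt z ^ 2 ≤ z := by
  rw [← rt_pow z]
  exact pow_le_pow_right₀ (one_le_rt hz) (by norm_num)

theorem summ_gg : Summable (gg (fun _ => 5 / 4)) := by
  have h1 : Summable (fun i : ℕ => ((i + 1 : ℕ) : ℝ) ^ (-(5 / 4) : ℝ)) :=
    (summable_nat_add_iff (f := fun i : ℕ => (i : ℝ) ^ (-(5 / 4) : ℝ)) 1).2
      (Real.summable_nat_rpow.2 (by norm_num))
  refine Summable.of_nonneg_of_le (fun i => (gg_pos _ i).le) (fun i => ?_) h1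
  rw [gg, Real.rpow_def_of_pos (by positivity)]
  refine Real.exp_le_exp.2 ?_
  have h2 := log_add_one_le_harmonic i
  have h3 : ∑ n ∈ range i, (5 / 4 : ℝ) / ((n : ℝ) + 1) = 5 / 4 * (harmonic i : ℝ) := by
    rw [harmonic, Rat.cast_sum, mul_sum]
    refine sum_congr rfl fun n _ => ?_
    push_cast
    ring
  rw [h3]
  linarith

theorem ff_top : Tendsto (ff (fun _ => 1)) atTop atTop := by
  refine (not_summable_iff_tendsto_nat_atTop_of_nonneg (fun i => (gg_pos _ i).le)).1 fun h => ?_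
  have h1 : ∀ i : ℕ, Real.exp (-1) * (1 / ((i + 1 : ℕ) : ℝ)) ≤ gg (fun _ => 1) (i + 1) := by
    intro i
    have h2 := harmonic_le_one_add_log (i + 1)
    have h3 : ∑ n ∈ range (i + 1), (1 : ℝ) / ((n : ℝ) + 1) = (harmonic (i + 1) : ℝ) := by
      rw [harmonic, Rat.cast_sum]
      refine sum_congr rfl fun n _ => ?_
      push_cast
      ring
    have h4 : (1 : ℝ) / ((i + 1 : ℕ) : ℝ) = Real.exp (-Real.log ((i + 1 : ℕ) : ℝ)) := by
      rw [Real.exp_neg, Real.exp_log (by positivity), one_div]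
    rw [gg, h3, h4, ← Real.exp_add]
    exact Real.exp_le_exp.2 (by linarith)
  have h5 := Summable.of_nonneg_of_le (fun i => by positivity) h1 ((summable_nat_add_iff 1).2 h)
  have h6 := (summable_mul_left_iff (Real.exp_pos (-1)).ne').1 h5
  exact Real.not_summable_one_div_natCast
    ((summable_nat_add_iff (f := fun i : ℕ => (1 : ℝ) / (i : ℝ)) 1).1 h6)

theorem lys (h : Tame P0 C) (k : ℕ) (hk : 1 ≤ k) (hd : ∀ᶠ z in atTop, (k : ℝ) + 1 / 3 ≤ dd P0 z) :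
    ∃ (f : ℕ → ℝ≥0∞) (z0 : ℕ), k ≤ z0 ∧ (∀ z, z < z0 → 1 ≤ f z) ∧ Tendsto f atTop (𝓝 0) ∧
      ∀ z, z0 ≤ z → ∫⁻ e, f (Rr e (tau e (z + 1 - k) (4 * z))) ∂Qa P0 ≤ f z := by
  obtain ⟨C0, hC0, hloss⟩ := got_LOSS (1 / 4) (by norm_num) (by norm_num)
  obtain ⟨C1, hC1, hQ⟩ := qlo C0 hC0
  obtain ⟨z1, hz1⟩ := eventually_atTop.1 ((err_small h C1 k).and hd)
  refine LYSx.fin P0 _ summ_gg k (max z1 k) (le_max_right _ _) fun z hz => ?_
  obtain ⟨⟨a1, -, a3⟩, a4⟩ := hz1 z ((le_max_left _ _).trans hz)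
  obtain ⟨i1, i2, e2⟩ := int_win h.in01 z
  obtain ⟨-, i4, e4⟩ := Ex_Qa P0 (z + 1 - k) (4 * z) (fun a _ => ff (fun _ => 5 / 4) a)
  set E : ℝ := C1 * (1 / rt z + rt z * ((k + 2 * C * rt z) ^ 2 / z)) with hE
  set F := ff (fun _ => 5 / 4) z with hF
  set G := gg (fun _ => 5 / 4) z with hG
  have i5 : Integrable (fun w : ℕ → ℝ => psum w z - win (fun i => |2 * w i - 1|) z) P0 := i1.sub i2
  have hle : ∫ w, ((F + G * (1 - k - 5 / 4 - E)) +
      G * (psum w z - win (fun i => |2 * w i - 1|) z)) ∂P0 ≤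
      ∫ w, Ex w (z + 1 - k) (4 * z) (fun a _ => ff (fun _ => 5 / 4) a) ∂P0 := by
    refine integral_mono_ae ((integrable_const _).add (i5.const_mul _)) i4 ?_
    filter_upwards [h.in01, h.2.1] with w hw hA
    have h1 := hQ w hw (2 * C * rt z) k z (rt z) (5 / 4)
      ((hA _).2.trans (by nlinarith [rt_four z, h.1])) hk (by omega) (one_le_rt (by omega))
      (rt_sq (by omega)) (by norm_num) (by norm_num)
      (hloss _ (fun _ => by norm_num) z (by omega))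
    refine le_trans (le_of_eq ?_) h1
    ring
  rw [integral_add (integrable_const _) (i5.const_mul _), integral_const_mul, integral_sub i1 i2,
    e2] at hle
  simp only [integral_const, probReal_univ, smul_eq_mul, one_mul] at hle
  rw [e4]
  refine le_trans ?_ hle
  have h2 : 0 ≤ G * (1 - k - 5 / 4 - E + (dd P0 z - win (al P0) z)) :=
    mul_nonneg (gg_pos _ z).le (by linarith)
  unfold dd at h2
  linarith

theorem lyk (h : Tame P0 C) (k : ℕ) (hk : 1 ≤ k) (hd : ∀ᶠ z in atTop, dd P0 z ≤ (k : ℝ) - 1 / 3) :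
    ∃ (f : ℕ → ℝ≥0∞) (z0 : ℕ), (∀ z, f z < ⊤) ∧ Tendsto f atTop (𝓝 ⊤) ∧
      ∀ z, z0 ≤ z → ∫⁻ e, f (Uo e (z + 1 - k)) ∂Qa P0 ≤ f z := by
  obtain ⟨z1, hz1⟩ := eventually_atTop.1 ((err_small h 1000000 k).and hd)
  refine ⟨fun x => ENNReal.ofReal (ff (fun _ => 1) x), z1, fun _ => ENNReal.ofReal_lt_top,
    ENNReal.tendsto_ofReal_atTop.comp ff_top, fun z hz => ?_⟩
  obtain ⟨⟨a1, a2, a3⟩, a4⟩ := hz1 z hz
  refine AUPx.fatou (Qa P0) _ (z + 1 - k) (4 * z) _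
    (fun N => (Ex_Qa P0 (z + 1 - k) N (fun a _ => ff (fun _ => 1) a)).1) fun N hN => ?_
  obtain ⟨i1, i2, e2⟩ := int_win h.in01 z
  obtain ⟨-, i4, e4⟩ := Ex_Qa P0 (z + 1 - k) N (fun a _ => ff (fun _ => 1) a)
  set E : ℝ := 1000000 * (1 / rt z + rt z * ((k + 2 * C * rt z) ^ 2 / z)) with hE
  set F := ff (fun _ => 1) z with hF
  set G := gg (fun _ => 1) z with hG
  have i5 : Integrable (fun w : ℕ → ℝ => psum w z + win (fun i => |2 * w i - 1|) z) P0 := i1.add i2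
  have hle : ∫ w, Ex w (z + 1 - k) N (fun a _ => ff (fun _ => 1) a) ∂P0 ≤
      ∫ w, ((F + G * (1 - k - 1 + E)) + G * (psum w z + win (fun i => |2 * w i - 1|) z)) ∂P0 := by
    refine integral_mono_ae i4 ((integrable_const _).add (i5.const_mul _)) ?_
    filter_upwards [h.in01, h.2.1] with w hw hA
    have h1 := qup w hw (fun i => (hA i).1.2) (2 * C * rt z) k z N (rt z) 1
      ((hA _).2.trans (by nlinarith [rt_four z, h.1])) hk (by omega) hN (one_le_rt (by omega))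
      (rt_sq (by omega)) a2 (by norm_num) (by norm_num)
    refine h1.trans (le_of_eq ?_)
    ring
  rw [integral_add (integrable_const _) (i5.const_mul _), integral_const_mul, integral_add i1 i2,
    e2] at hle
  simp only [integral_const, probReal_univ, smul_eq_mul, one_mul] at hle
  rw [e4]
  refine hle.trans ?_
  have h2 : G * (1 - k - 1 + E + (dd P0 z + win (al P0) z)) ≤ 0 :=
    mul_nonpos_of_nonneg_of_nonpos (gg_pos _ z).le (by linarith)
  unfold dd at h2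
  linarith

theorem inf_both (h : Tame P0 C) (b : Bool) : ∀ᵐ a ∂Fld P0, ∀ x m, ∃ i, m ≤ i ∧ a x i = b := by
  refine ae_fld P0 (φ := fun e => ∀ m, ∃ i, m ≤ i ∧ e i = b) (ae_Qa P0 (measSet_inf b) ?_)
  filter_upwards [h.in01, h.2.1] with w hw hA
  refine got_INF w hw b ?_
  have h1 : Tendsto (fun n : ℕ => (n : ℝ) * (1 / 4)) atTop atTop :=
    tendsto_natCast_atTop_atTop.atTop_mul_const (by norm_num)
  refine tendsto_atTop_mono (fun n => ?_) h1
  have h2 : ∀ i ∈ range n, (1 / 4 : ℝ) ≤ pr (w i) b := fun i _ => by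
    cases b
    · rw [pr_false]; linarith [(hA i).1.2]
    · exact (hA i).1.1
  simpa using card_nsmul_le_sum _ _ _ h2

theorem surv (h : Tame P0 C) (r : ℕ) (hr : 1 ≤ r)
    (hd : ∀ᶠ z in atTop, (r : ℝ) + 1 / 3 ≤ dd P0 z) :
    ∀ᵐ a ∂Fld P0, Surv a r ∧ ∀ x m, ∃ i, m ≤ i ∧ a x i = true := by
  obtain ⟨f, z0, hz0, hf1, hf0, hfs⟩ := lys h r hr hd
  have mF : ∀ z : ℕ, Measurable (fun e : ℕ → Bool => Rr e (tau e (z + 1 - r) (4 * z))) :=
    fun z => meas_Rr_tau _ _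
  have hsup := got_SUP (ℕ → Bool) (Qa P0) (fun e z => Rr e (tau e (z + 1 - r) (4 * z))) r z0 f mF
    hz0 hf1 hfs
  have hch := got_CH (ℕ → Bool) (ℤ → ℕ → Bool) (Qa P0) (Fld P0)
    (fun (n : ℕ) (a : ℤ → ℕ → Bool) => a ((n : ℤ) + 1))
    (fun e z => Rr e (tau e (z + 1 - r) (4 * z))) r mF (fun n => measurable_pi_apply _)
    (fld_indep P0) (fun n => fld_map P0 _)
  set S : ℕ → Set (ℤ → ℕ → Bool) := fun z => {ω | ∀ n, r ≤
    it (fun (e : ℕ → Bool) (z : ℕ) => Rr e (tau e (z + 1 - r) (4 * z)))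
      (fun i : ℕ => ω ((i : ℤ) + 1)) z (n + 1)} with hS
  have hcompl : ∀ z, Fld P0 (S z)ᶜ ≤ f z := by
    intro z
    have h1 := hsup z
    rw [← (hch z).2] at h1
    have h2 : Fld P0 (S z) + Fld P0 (S z)ᶜ = 1 := prob_add_prob_compl (hch z).1
    have h3 : Fld P0 (S z) + Fld P0 (S z)ᶜ ≤ Fld P0 (S z) + f z := h2.le.trans h1
    exact (ENNReal.add_le_add_iff_left (measure_ne_top _ _)).1 h3
  have hal : ∀ᵐ a ∂Fld P0, ∃ z, r ≤ z ∧ a ∈ S z := by
    rw [ae_iff]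
    refine le_antisymm (ge_of_tendsto hf0 ?_) zero_le
    filter_upwards [eventually_ge_atTop r] with z hz
    refine (measure_mono fun a ha => ?_).trans (hcompl z)
    exact fun h => ha ⟨z, hz, h⟩
  filter_upwards [hal, inf_both h true] with a ha hi
  obtain ⟨z, hz, ha⟩ := ha
  exact ⟨SURVQx.surv_of_alive a r z (fun z => 4 * z) hz (hi 0) ha, hi⟩

theorem kill (h : Tame P0 C) (r : ℕ) (hr : 1 ≤ r)
    (hd : ∀ᶠ z in atTop, dd P0 z ≤ (r : ℝ) - 1 / 3) : ∀ᵐ a ∂Fld P0, ¬ Surv a r := by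
  obtain ⟨f, z0, hf, hft, hfs⟩ := lyk h r hr hd
  have mF : ∀ z, Measurable (fun e : ℕ → Bool => Uo e (z + 1 - r)) := fun z => meas_Uo _
  have hk := got_KILL (ℕ → Bool) (Qa P0) (fun e z => Uo e (z + 1 - r)) r z0 f mF hf hft hfs
    (fun z => KILLQx.pos got_CYL P0 h.in01 h.wl _ r hr)
  have hnull : ∀ᵐ a ∂Fld P0, ∀ z, ¬ ∀ n, r ≤ it (fun e z => Uo e (z + 1 - r))
      (fun i : ℕ => a ((i : ℤ) + 1)) z (n + 1) := by
    rw [ae_all_iff]
    intro z
    have := (got_CH (ℕ → Bool) (ℤ → ℕ → Bool) (Qa P0) (Fld P0) (fun n a => a ((n : ℤ) + 1))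
      (fun e z => Uo e (z + 1 - r)) r mF (fun n => measurable_pi_apply _) (fld_indep P0)
      (fun n => fld_map P0 _) z).2
    rw [hk z] at this
    rw [ae_iff]
    simpa only [not_not] using this
  filter_upwards [hnull, inf_both h false] with a h1 h2 hs
  obtain ⟨z, hz⟩ := KILLQx.alive a r h2 hs
  exact h1 z hz

end

end Pool.Agent.P.MP_c7fa75_pr.SP
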